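import Mathlib

set_option linter.unusedVariables false

namespace Pool.Agent.Results.MP_c852bb_co.LDC

/-- locating-dominating set -/
def IsLD {V : Type} (G : SimpleGraph V) (D : Set V) : Prop :=
  (∀ v, v ∉ D → ∃ w ∈ D, G.Adj v w) ∧
    ∀ u v, u ∉ D → v ∉ D → u ≠ v → G.neighborSet u ∩ D ≠ G.neighborSet v ∩ D

/-- partition of `W` into nonempty non-LD sets, each in an LD-coalition with another part -/
def IsLDCPartitionOn {V : Type} (G : SimpleGraph V) (W : Set V) (P : Set (Set V)) : Prop :=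
  (∀ X ∈ P, X.Nonempty) ∧ (∀ X ∈ P, ∀ Y ∈ P, X ≠ Y → Disjoint X Y) ∧ ⋃₀ P = W ∧
    (∀ X ∈ P, ¬ IsLD G X) ∧ ∀ X ∈ P, ∃ Y ∈ P, Y ≠ X ∧ IsLD G (X ∪ Y)

lemma IsLD.mono {V : Type} {G : SimpleGraph V} {D E : Set V} (h : IsLD G D) (hDE : D ⊆ E) :
    IsLD G E := by
  refine ⟨fun v hv => ?_, fun u v hu hv huv he => ?_⟩
  · obtain ⟨w, hw, ha⟩ := h.1 v fun e => hv (hDE e)
    exact ⟨w, hDE hw, ha⟩
  · refine h.2 u v (fun e => hu (hDE e)) (fun e => hv (hDE e)) huv ?_
    have := congrArg (· ∩ D) he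
    simpa [Set.inter_assoc, Set.inter_eq_self_of_subset_right hDE] using this

lemma not_LD_small {V : Type} [Fintype V] (G : SimpleGraph V) (h3 : 3 ≤ Fintype.card V) (x : V)
    (D : Set V) (hD : D ⊆ {x}) : ¬ IsLD G D := by
  classical
  intro h
  have h' := h.mono hD
  have : 1 < (Finset.univ.erase x).card := by
    rw [Finset.card_erase_of_mem (Finset.mem_univ x), Finset.card_univ]; omega
  obtain ⟨u, hu, v, hv, huv⟩ := Finset.one_lt_card.1 this
  have hu' : u ∉ ({x} : Set V) := by simpa using hu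
  have hv' : v ∉ ({x} : Set V) := by simpa using hv
  obtain ⟨a, rfl, ha⟩ := h'.1 u hu'
  obtain ⟨b, hb, hb'⟩ := h'.1 v hv'
  have hb2 : b = a := hb
  subst hb2
  refine h'.2 u v hu' hv' huv ?_
  rw [Set.inter_eq_self_of_subset_right (by simpa using ha),
    Set.inter_eq_self_of_subset_right (by simpa using hb')]

lemma pair {V : Type} (G : SimpleGraph V) (X Y : Set V) (hX : X.Nonempty) (hY : Y.Nonempty)
    (hd : Disjoint X Y) (h1 : ¬ IsLD G X) (h2 : ¬ IsLD G Y) (h : IsLD G (X ∪ Y)) :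
    IsLDCPartitionOn G (X ∪ Y) {X, Y} := by
  have hne : X ≠ Y := by
    rintro rfl
    exact hX.ne_empty (disjoint_self.1 hd)
  refine ⟨?_, ?_, by simp, ?_, ?_⟩
  · rintro _ (rfl | rfl) <;> assumption
  · rintro _ (rfl | rfl) _ (rfl | rfl) hh
    exacts [absurd rfl hh, hd, hd.symm, absurd rfl hh]
  · rintro _ (rfl | rfl) <;> assumption
  · rintro _ (rfl | rfl)
    · exact ⟨Y, by simp, hne.symm, h⟩
    · exact ⟨X, by simp, hne, by rwa [Set.union_comm]⟩

lemma union {V : Type} (G : SimpleGraph V) {W W' : Set V} {P P' : Set (Set V)}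
    (h : IsLDCPartitionOn G W P) (h' : IsLDCPartitionOn G W' P') (hd : Disjoint W W') :
    IsLDCPartitionOn G (W ∪ W') (P ∪ P') := by
  obtain ⟨a1, a2, a3, a4, a5⟩ := h
  obtain ⟨b1, b2, b3, b4, b5⟩ := h'
  have key : ∀ X ∈ P, ∀ Y ∈ P', Disjoint X Y := fun X hX Y hY =>
    hd.mono (a3 ▸ Set.subset_sUnion_of_mem hX) (b3 ▸ Set.subset_sUnion_of_mem hY)
  refine ⟨?_, ?_, by rw [Set.sUnion_union, a3, b3], ?_, ?_⟩
  · rintro X (hX | hX)
    exacts [a1 X hX, b1 X hX]
  · rintro X (hX | hX) Y (hY | hY) hne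
    exacts [a2 X hX Y hY hne, key X hX Y hY, (key Y hY X hX).symm, b2 X hX Y hY hne]
  · rintro X (hX | hX)
    exacts [a4 X hX, b4 X hX]
  · rintro X (hX | hX)
    · obtain ⟨Y, hY, e⟩ := a5 X hX
      exact ⟨Y, Or.inl hY, e⟩
    · obtain ⟨Y, hY, e⟩ := b5 X hX
      exact ⟨Y, Or.inr hY, e⟩

lemma insert_part {V : Type} (G : SimpleGraph V) {W R : Set V} {P : Set (Set V)}
    (h : IsLDCPartitionOn G W P) (hd : Disjoint R W) (hR : R.Nonempty) (h1 : ¬ IsLD G R)
    (Y : Set V) (hY : Y ∈ P) (h2 : IsLD G (R ∪ Y)) :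
    IsLDCPartitionOn G (R ∪ W) (insert R P) := by
  obtain ⟨a1, a2, a3, a4, a5⟩ := h
  have key : ∀ X ∈ P, Disjoint R X := fun X hX =>
    hd.mono_right (a3 ▸ Set.subset_sUnion_of_mem hX)
  refine ⟨?_, ?_, by rw [Set.sUnion_insert, a3], ?_, ?_⟩
  · rintro X (rfl | hX)
    exacts [hR, a1 X hX]
  · rintro X (rfl | hX) Z (rfl | hZ) hne
    exacts [absurd rfl hne, key Z hZ, (key X hX).symm, a2 X hX Z hZ hne]
  · rintro X (rfl | hX)
    exacts [h1, a4 X hX]
  · rintro X (rfl | hX)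
    · refine ⟨Y, Or.inr hY, ?_, h2⟩
      rintro rfl
      exact hR.ne_empty (disjoint_self.1 (key Y hY))
    · obtain ⟨Z, hZ, e⟩ := a5 X hX
      exact ⟨Z, Or.inr hZ, e⟩

lemma main {V : Type} [Fintype V] (G : SimpleGraph V) (h3 : 3 ≤ Fintype.card V) (k : ℕ) :
    ∀ W : Set V, W.ncard ≤ k → IsLD G W → ∃ P, IsLDCPartitionOn G W P := by
  have hne : Nonempty V := Fintype.card_pos_iff.1 (by omega)
  obtain ⟨x0⟩ := hne
  induction k with
  | zero =>
    intro W hW h
    have : W = ∅ := (Set.ncard_eq_zero (Set.toFinite W)).1 (by omega)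
    exact absurd h (not_LD_small G h3 x0 W (by simp [this]))
  | succ k ih =>
    intro W hW h
    obtain ⟨D, hDW, hD⟩ := exists_minimal_le_of_wellFoundedLT (IsLD G) W h
    have hDne : D.Nonempty := by
      by_contra hh
      exact not_LD_small G h3 x0 D (by simp [Set.not_nonempty_iff_eq_empty.1 hh]) hD.1
    obtain ⟨x, hx⟩ := hDne
    have n1 : ¬ IsLD G {x} := not_LD_small G h3 x _ subset_rfl
    have n2 : ¬ IsLD G (D \ {x}) := fun e => (hD.2 e Set.sdiff_subset hx).2 rfl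
    have n3 : (D \ {x}).Nonempty := by
      by_contra hh
      exact not_LD_small G h3 x D
        (Set.sdiff_eq_empty.1 (Set.not_nonempty_iff_eq_empty.1 hh)) hD.1
    have e1 : {x} ∪ D \ {x} = D := by
      rw [Set.union_sdiff_self]; exact Set.union_eq_self_of_subset_left (by simpa using hx)
    have p1 := pair G {x} (D \ {x}) (Set.singleton_nonempty x) n3 Set.disjoint_sdiff_right n1 n2
      (e1.symm ▸ hD.1)
    rw [e1] at p1
    have e2 : W \ D ∪ D = W := Set.sdiff_union_of_subset hDW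
    by_cases hR : IsLD G (W \ D)
    · have hlt : (W \ D).ncard < W.ncard :=
        Set.ncard_lt_ncard ⟨Set.sdiff_subset, fun e => (e (hDW hx)).2 hx⟩ (Set.toFinite W)
      obtain ⟨P, hP⟩ := ih _ (by omega) hR
      exact ⟨_, e2 ▸ union G hP p1 Set.disjoint_sdiff_left⟩
    · by_cases hRx : IsLD G (W \ D ∪ {x})
      · have hRne : (W \ D).Nonempty := by
          by_contra hh
          rw [Set.not_nonempty_iff_eq_empty.1 hh, Set.empty_union] at hRx
          exact n1 hRx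
        exact ⟨_, e2 ▸ insert_part G p1 Set.disjoint_sdiff_left hRne hR {x} (by simp) hRx⟩
      · have e3 : (W \ D ∪ {x}) ∪ D \ {x} = W := by rw [Set.union_assoc, e1, e2]
        refine ⟨_, e3 ▸ pair G (W \ D ∪ {x}) (D \ {x}) (by simp) n3 ?_ hRx n2 (e3.symm ▸ h)⟩
        rw [Set.disjoint_left]
        rintro y (hy | hy) hy'
        exacts [hy.2 hy'.1, hy'.2 hy]

theorem result {V : Type} [Fintype V] (G : SimpleGraph V) (h3 : 3 ≤ Fintype.card V) :
    ∃ P : Set (Set V), IsLDCPartitionOn G Set.univ P :=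
  main G h3 _ Set.univ le_rfl ⟨fun v hv => absurd trivial hv, fun u _ hu => absurd trivial hu⟩

end Pool.Agent.Results.MP_c852bb_co.LDC
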